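import Pool.Agent.Helper57.BG.Stmts

/-!
# The bracket of coprime moduli (blocks G10, G11 of A')
-/

open Finset

namespace Pool.Agent.Helper4.BG

open Pool.Agent.Helper57.BG

/-- one residue class -/
theorem NN_class (Y : ℝ) (k : ℤ) (u l u' l' q : ℕ) (hq : 0 < q) (m0 : ℤ)
    (h : ∀ m : ℤ, ((u : ℤ) ∣ m * l - k ∧ (u' : ℤ) ∣ m * l' - k) ↔ (q : ℤ) ∣ m - m0) :
    NN Y k u l u' l' = ∑' j : ℤ, fj Y (m0 + q * j) := by
  classical
  have hq0 : (q : ℤ) ≠ 0 := by exact_mod_cast hq.ne'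
  have hinj : Function.Injective (fun j : ℤ => m0 + (q : ℤ) * j) := by
    intro a b hab
    have : (q : ℤ) * a = q * b := by simpa using hab
    exact mul_left_cancel₀ hq0 this
  unfold NN
  rw [← hinj.tsum_eq]
  · apply tsum_congr
    intro j
    rw [if_pos]
    · push_cast
      rfl
    · rw [h]
      exact ⟨j, by ring⟩
  · intro m hm
    rw [Function.mem_support] at hm
    have h1 : (u : ℤ) ∣ m * l - k ∧ (u' : ℤ) ∣ m * l' - k := by
      by_contra hc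
      exact hm (if_neg hc)
    rw [h] at h1
    obtain ⟨j, hj⟩ := h1
    exact ⟨j, by simp only; rw [← hj]; ring⟩

theorem dvd_shift {u l k m m0 : ℤ} (hc : IsCoprime u l) (h0 : u ∣ m0 * l - k) :
    u ∣ m * l - k ↔ u ∣ m - m0 := by
  have e : m * l - k = (m - m0) * l + (m0 * l - k) := by ring
  rw [e, dvd_add_left h0]
  exact ⟨fun h => hc.dvd_of_dvd_mul_right h, fun h => h.mul_right l⟩

/-- the common solution -/
theorem exists_sol (k : ℤ) {q1 q2 q2' l l' j : ℤ}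
    (hlq1 : IsCoprime q1 l) (hlq2 : IsCoprime q2 l) (hlq1' : IsCoprime q1 l') (hlq2' : IsCoprime q2' l')
    (hqq : IsCoprime q2 q2') (hj : l' - l = q1 * j) :
    ∃ m0 s t : ℤ, m0 * l = k + q1 * q2 * s ∧ m0 * l' = k + q1 * q2' * t := by
  obtain ⟨a, b, hab⟩ := hlq1.mul_left hlq2
  obtain ⟨c, d, hcd⟩ := hlq1'.mul_left hlq2'
  -- `b k` solves the first, `d k` the second
  have e1 : (b * k) * l = k + q1 * q2 * (-(a * k)) := by linear_combination k * hab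
  have e2 : (d * k) * l' = k + q1 * q2' * (-(c * k)) := by linear_combination k * hcd
  have e3 : q1 ∣ b * k - d * k := by
    have : q1 ∣ (b * k - d * k) * l := by
      refine ⟨q2 * (-(a * k)) - q2' * (-(c * k)) + d * k * j, ?_⟩
      linear_combination e1 - e2 + d * k * hj
    exact hlq1.dvd_of_dvd_mul_right this
  obtain ⟨v, hv⟩ := e3
  obtain ⟨e, f, hef⟩ := hqq
  -- `m0 = b k - q1 q2 e v = d k + q1 q2' f v`
  refine ⟨b * k - q1 * q2 * e * v, -(a * k) - e * v * l, -(c * k) + f * v * l', ?_, ?_⟩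
  · linear_combination e1
  · linear_combination e2 + l' * hv - q1 * v * l' * hef

theorem ee_zero : ee 0 = 1 := by simp [ee]

theorem ee_add (x y : ℝ) : ee (x + y) = ee x * ee y := by
  unfold ee
  rw [← Complex.exp_add]
  congr 1
  push_cast
  ring

theorem ee_int (n : ℤ) : ee n = 1 := by
  unfold ee
  rw [show (2 * (Real.pi : ℂ) * ((n : ℝ) : ℂ) * Complex.I) = n * (2 * Real.pi * Complex.I) by
    push_cast; ring]
  exact Complex.exp_int_mul_two_pi_mul_I n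

theorem ee_mod {V : ℕ} (hV : 0 < V) {a b : ℤ} (h : (V : ℤ) ∣ a - b) :
    ee ((a : ℝ) / V) = ee ((b : ℝ) / V) := by
  obtain ⟨c, hc⟩ := h
  have hV0 : (V : ℝ) ≠ 0 := by exact_mod_cast hV.ne'
  have e : (a : ℝ) / V = (b : ℝ) / V + (c : ℤ) := by
    have : (a : ℝ) = b + V * c := by
      have : a = b + V * c := by linarith
      exact_mod_cast this
    rw [this]
    field_simp
  rw [e, ee_add, ee_int, mul_one]

theorem ph_eq_ee (V : ℕ) (c n : ℤ) : ph V c n = ee (((c * (((n : ZMod V)⁻¹).val : ℤ) : ℤ) : ℝ) / V) := by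
  unfold ph ee
  congr 1
  push_cast
  ring

/-- the phase of the solution `s` of `n s = c mod V` -/
theorem ee_ph {V : ℕ} (hV : 0 < V) {n : ℤ} (hn : IsCoprime n (V : ℤ)) (η c s : ℤ)
    (h : (V : ℤ) ∣ n * s - c) : ee (((η * s : ℤ) : ℝ) / V) = ph V (η * c) n := by
  rw [ph_eq_ee]
  apply ee_mod hV
  have hu : IsUnit (n : ZMod V) := by
    obtain ⟨a, b, hab⟩ := hn
    have : (a : ZMod V) * n = 1 := by
      have := congrArg (Int.cast : ℤ → ZMod V) hab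
      push_cast at this
      simpa using this
    exact IsUnit.of_mul_eq_one_right _ this
  have h1 : ((n : ZMod V)⁻¹ : ZMod V) * n = 1 := ZMod.inv_mul_of_unit _ hu
  have : NeZero V := ⟨hV.ne'⟩
  rw [← ZMod.intCast_zmod_eq_zero_iff_dvd]
  have h2 : ((n * s - c : ℤ) : ZMod V) = 0 := (ZMod.intCast_zmod_eq_zero_iff_dvd _ _).2 h
  push_cast at h2 ⊢
  rw [ZMod.natCast_zmod_val]
  have h3 : (s : ZMod V) = (n : ZMod V)⁻¹ * c := by
    have : (c : ZMod V) = n * s := by linear_combination -h2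
    rw [this, ← mul_assoc, h1, one_mul]
  rw [h3]
  ring

/-- the bracket of coprime moduli, before the reciprocity -/
theorem Br_sum (hFJ : Stmt_FJ) (hFJx : Stmt_FJ_exact) (Y : ℝ) (hY : 0 < Y) (k : ℤ) (q1 q2 l q2' l' : ℕ) (H : ℕ)
    (h1 : 0 < q1) (h2 : 0 < q2) (h2' : 0 < q2')
    (hlq1 : Nat.Coprime l q1) (hlq1' : Nat.Coprime l' q1) (hqq : Nat.Coprime q2 q2')
    (hlq2 : Nat.Coprime l q2) (hlq2' : Nat.Coprime l' q2')
    (hY1 : ((q1 * q2 : ℕ) : ℝ) ≤ Y) (hY2 : ((q1 * q2' : ℕ) : ℝ) ≤ Y)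
    (hH : (q1 : ℝ) * q2 * q2' / Y ≤ H) {m0 s t : ℤ} (hs : m0 * l = k + q1 * q2 * s)
    (ht : m0 * l' = k + q1 * q2' * t) :
    ((Br Y k q1 q2 l q2' l' : ℝ) : ℂ) = ∑ η ∈ (Icc (-(H : ℤ)) H).erase 0,
      ((FF (Y / q1) η (q2 * q2') : ℝ) : ℂ) * ee (η * m0 / (q1 * q2 * q2')) := by
  have cq1 : IsCoprime (q1 : ℤ) (l : ℤ) := Nat.isCoprime_iff_coprime.2 hlq1.symm
  have cq2 : IsCoprime (q2 : ℤ) (l : ℤ) := Nat.isCoprime_iff_coprime.2 hlq2.symm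
  have cq1' : IsCoprime (q1 : ℤ) (l' : ℤ) := Nat.isCoprime_iff_coprime.2 hlq1'.symm
  have cq2' : IsCoprime (q2' : ℤ) (l' : ℤ) := Nat.isCoprime_iff_coprime.2 hlq2'.symm
  have cqq : IsCoprime (q2 : ℤ) (q2' : ℤ) := Nat.isCoprime_iff_coprime.2 hqq
  have h1z : (q1 : ℤ) ≠ 0 := by exact_mod_cast h1.ne'
  have h1r : (0 : ℝ) < q1 := by exact_mod_cast h1
  have h2r : (0 : ℝ) < q2 := by exact_mod_cast h2
  have h2r' : (0 : ℝ) < q2' := by exact_mod_cast h2'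
  -- the two shifts
  have a1 : (q1 * q2 : ℤ) ∣ m0 * l - k := ⟨s, by linarith⟩
  have a2 : (q1 * q2' : ℤ) ∣ m0 * l' - k := ⟨t, by linarith⟩
  have a3 : (q1 : ℤ) ∣ m0 * l - k := (dvd_mul_right _ _).trans a1
  have a4 : (q1 : ℤ) ∣ m0 * l' - k := (dvd_mul_right _ _).trans a2
  have b1 : ∀ m : ℤ, (q1 * q2 : ℤ) ∣ m * l - k ↔ (q1 * q2 : ℤ) ∣ m - m0 := fun m =>
    dvd_shift (cq1.mul_left cq2) a1
  have b2 : ∀ m : ℤ, (q1 * q2' : ℤ) ∣ m * l' - k ↔ (q1 * q2' : ℤ) ∣ m - m0 := fun m =>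
    dvd_shift (cq1'.mul_left cq2') a2
  have b3 : ∀ m : ℤ, (q1 : ℤ) ∣ m * l - k ↔ (q1 : ℤ) ∣ m - m0 := fun m => dvd_shift cq1 a3
  have b4 : ∀ m : ℤ, (q1 : ℤ) ∣ m * l' - k ↔ (q1 : ℤ) ∣ m - m0 := fun m => dvd_shift cq1' a4
  have n1 : NN Y k (q1 * q2) l (q1 * q2') l' = ∑' j : ℤ, fj Y (m0 + ((q1 * q2 * q2' : ℕ) : ℝ) * j) := by
    refine NN_class Y k _ _ _ _ _ (by positivity) m0 (fun m => ?_)
    push_cast
    rw [b1, b2]
    constructor
    · rintro ⟨⟨x, hx⟩, h⟩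
      have h' : (q1 : ℤ) * q2' ∣ q1 * (q2 * x) := by
        rw [show (q1 : ℤ) * (q2 * x) = m - m0 by rw [hx]; ring]; exact h
      have h'' : (q2' : ℤ) ∣ q2 * x := (mul_dvd_mul_iff_left h1z).1 h'
      obtain ⟨y, hy⟩ := cqq.symm.dvd_of_dvd_mul_left h''
      exact ⟨y, by rw [hx, hy]; ring⟩
    · rintro ⟨y, hy⟩
      exact ⟨⟨q2' * y, by rw [hy]; ring⟩, ⟨q2 * y, by rw [hy]; ring⟩⟩
  have n2 : NN Y k (q1 * q2) l q1 l' = Y / ((q1 * q2 : ℕ) : ℝ) := by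
    rw [NN_class Y k _ _ _ _ (q1 * q2) (by positivity) m0 (fun m => by
      push_cast
      rw [b1, b4]
      exact ⟨fun h => h.1, fun h => ⟨h, (dvd_mul_right _ _).trans h⟩⟩)]
    exact (hFJx Y (q1 * q2) (by positivity) hY1 m0).tsum_eq
  have n3 : NN Y k q1 l (q1 * q2') l' = Y / ((q1 * q2' : ℕ) : ℝ) := by
    rw [NN_class Y k _ _ _ _ (q1 * q2') (by positivity) m0 (fun m => by
      push_cast
      rw [b3, b2]
      exact ⟨fun h => h.2, fun h => ⟨(dvd_mul_right _ _).trans h, h⟩⟩)]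
    exact (hFJx Y (q1 * q2') (by positivity) hY2 m0).tsum_eq
  have hq1Y : (q1 : ℝ) ≤ Y := by
    refine le_trans ?_ hY1
    have : q1 * 1 ≤ q1 * q2 := Nat.mul_le_mul_left _ h2
    exact_mod_cast (by simpa using this)
  have n4 : NN Y k q1 l q1 l' = Y / q1 := by
    rw [NN_class Y k _ _ _ _ q1 h1 m0 (fun m => by
      rw [b3, b4]
      exact ⟨fun h => h.1, fun h => ⟨h, h⟩⟩)]
    exact (hFJx Y q1 h1 hq1Y m0).tsum_eq
  have hF := (hFJ Y hY (q1 * q2 * q2') (by positivity) m0 H (by push_cast; exact hH)).tsum_eq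
  rw [← Complex.ofReal_tsum, ← n1] at hF
  have hmem : (0 : ℤ) ∈ Icc (-(H : ℤ)) H := by simp
  rw [← Finset.add_sum_erase _ _ hmem] at hF
  have hFF : ∀ η : ℤ, FF Y η ((q1 * q2 * q2' : ℕ) : ℝ) = FF (Y / q1) η (q2 * q2') := by
    intro η
    have e : Y / ((q1 * q2 * q2' : ℕ) : ℝ) = Y / q1 / (q2 * q2') := by
      push_cast
      field_simp
    unfold FF
    rw [e]
  have h0 : ((FF Y 0 ((q1 * q2 * q2' : ℕ) : ℝ) : ℝ) : ℂ) * ee (((0 : ℤ) : ℝ) * m0 / ((q1 * q2 * q2' : ℕ) : ℝ))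
      = ((Y / (q1 * q2 * q2') : ℝ) : ℂ) := by
    rw [Int.cast_zero, zero_mul, zero_div, ee_zero, mul_one]
    unfold FF
    push_cast
    simp
  rw [h0] at hF
  have hBr : Br Y k q1 q2 l q2' l' = NN Y k (q1 * q2) l (q1 * q2') l' - Y / (q1 * q2 * q2') := by
    unfold Br
    rw [n2, n3, n4]
    push_cast
    field_simp
    ring
  rw [hBr]
  push_cast at hF ⊢
  rw [hF, add_sub_cancel_left]
  refine Finset.sum_congr rfl fun η _ => ?_
  have := hFF η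
  push_cast at this
  rw [this]

/-- the part of the phase without inverses -/
theorem phase_split {q1 q2 q2' l : ℕ} (h1 : 0 < q1) (h2 : 0 < q2) (h2' : 0 < q2') (hl : 0 < l)
    {k m0 s : ℤ} (hs : m0 * l = k + q1 * q2 * s) (η : ℤ) :
    ((η : ℝ) * m0 / (q1 * q2 * q2')) = η * k / (l * q1 * q2 * q2') +
      ((η * s : ℤ) : ℝ) / ((l * q2' : ℕ) : ℝ) := by
  have h1r : (0 : ℝ) < q1 := by exact_mod_cast h1
  have h2r : (0 : ℝ) < q2 := by exact_mod_cast h2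
  have h2r' : (0 : ℝ) < q2' := by exact_mod_cast h2'
  have hlr : (0 : ℝ) < l := by exact_mod_cast hl
  have e : (m0 : ℝ) * l = k + q1 * q2 * s := by exact_mod_cast hs
  push_cast
  field_simp
  linear_combination (η : ℝ) * e

theorem key_dvd {q1 q2 q2' l l' k j m0 s t : ℤ} (h1 : q1 ≠ 0) (hs : m0 * l = k + q1 * q2 * s)
    (ht : m0 * l' = k + q1 * q2' * t) (hj : l' - l = q1 * j) :
    l' * q2 * s - (-(k * j)) = l * q2' * t := by
  have : q1 * (l' * q2 * s - (-(k * j))) = q1 * (l * q2' * t) := by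
    linear_combination -l' * hs + l * ht - k * hj
  exact mul_left_cancel₀ h1 this

theorem brE_of (hFJ : Stmt_FJ) (hFJx : Stmt_FJ_exact) (Y : ℝ) (hY : 0 < Y) (k : ℤ) (q1 q2 l q2' l' : ℕ) (j : ℤ) (H : ℕ)
    (h1 : 0 < q1) (h2 : 0 < q2) (h2' : 0 < q2') (hl : 0 < l) (_hl' : 0 < l')
    (hlq1 : Nat.Coprime l q1) (hlq1' : Nat.Coprime l' q1) (hqq : Nat.Coprime q2 q2')
    (hlq2 : Nat.Coprime l q2) (hlq2' : Nat.Coprime l' q2') (hll : Nat.Coprime l l')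
    (hj : (l' : ℤ) - l = q1 * j) (hY1 : ((q1 * q2 : ℕ) : ℝ) ≤ Y) (hY2 : ((q1 * q2' : ℕ) : ℝ) ≤ Y)
    (hH : (q1 : ℝ) * q2 * q2' / Y ≤ H) :
    ((Br Y k q1 q2 l q2' l' : ℝ) : ℂ) = ∑ η ∈ (Icc (-(H : ℤ)) H).erase 0,
      ((FF (Y / q1) η (q2 * q2') : ℝ) : ℂ) * ee (η * k / (l * q1 * q2 * q2')) *
        ph (l * q2') (-(η * k * j)) (l' * q2) := by
  have h1z : (q1 : ℤ) ≠ 0 := by exact_mod_cast h1.ne'
  obtain ⟨m0, s, t, hs, ht⟩ := exists_sol k (q1 := q1) (q2 := q2) (q2' := q2') (l := l) (l' := l') (j := j)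
    (Nat.isCoprime_iff_coprime.2 hlq1.symm) (Nat.isCoprime_iff_coprime.2 hlq2.symm)
    (Nat.isCoprime_iff_coprime.2 hlq1'.symm) (Nat.isCoprime_iff_coprime.2 hlq2'.symm)
    (Nat.isCoprime_iff_coprime.2 hqq) hj
  rw [Br_sum hFJ hFJx Y hY k q1 q2 l q2' l' H h1 h2 h2' hlq1 hlq1' hqq hlq2 hlq2' hY1 hY2 hH hs ht]
  refine Finset.sum_congr rfl fun η _ => ?_
  rw [phase_split h1 h2 h2' hl hs η, ee_add]
  have hk := key_dvd h1z hs ht hj
  have hco : IsCoprime ((l' : ℤ) * q2) ((l * q2' : ℕ) : ℤ) := by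
    rw [show ((l' : ℤ) * q2) = ((l' * q2 : ℕ) : ℤ) by push_cast; rfl, Nat.isCoprime_iff_coprime]
    exact Nat.Coprime.mul_left (Nat.Coprime.mul_right hll.symm hlq2')
      (Nat.Coprime.mul_right hlq2.symm hqq)
  rw [ee_ph (V := l * q2') (by positivity) hco η (-(k * j)) s ⟨t, by rw [hk]; push_cast; ring⟩]
  rw [show η * -(k * j) = -(η * k * j) by ring]
  ring

theorem ee_crt {x y : ℕ} (hx : 0 < x) (hy : 0 < y) {a b η s : ℤ} (hab : a * x + b * y = 1) :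
    ee (((η * s : ℤ) : ℝ) / ((x * y : ℕ) : ℝ)) = ee (((η * (b * s) : ℤ) : ℝ) / x) *
      ee (((η * (a * s) : ℤ) : ℝ) / y) := by
  rw [← ee_add]
  congr 1
  have hxr : (0 : ℝ) < x := by exact_mod_cast hx
  have hyr : (0 : ℝ) < y := by exact_mod_cast hy
  have e : (a : ℝ) * x + b * y = 1 := by exact_mod_cast hab
  push_cast
  field_simp
  linear_combination -((η : ℝ) * s) * e

theorem brS_of (hFJ : Stmt_FJ) (hFJx : Stmt_FJ_exact) (Y : ℝ) (hY : 0 < Y) (k : ℤ) (q1 q2 x q2' x' : ℕ) (j : ℤ) (H : ℕ)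
    (h1 : 0 < q1) (h2 : 0 < q2) (h2' : 0 < q2') (hx : 0 < x) (_hx' : 0 < x')
    (hxq1 : Nat.Coprime x q1) (hxq1' : Nat.Coprime x' q1) (hqq : Nat.Coprime q2 q2')
    (hxq2 : Nat.Coprime x q2) (hxq2' : Nat.Coprime x' q2') (hxx : Nat.Coprime x q2')
    (hj : (x' : ℤ) - x = q1 * j) (hY1 : ((q1 * q2 : ℕ) : ℝ) ≤ Y) (hY2 : ((q1 * q2' : ℕ) : ℝ) ≤ Y)
    (hH : (q1 : ℝ) * q2 * q2' / Y ≤ H) :
    ((Br Y k q1 q2 x q2' x' : ℝ) : ℂ) = ∑ η ∈ (Icc (-(H : ℤ)) H).erase 0,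
      ((FF (Y / q1) η (q2 * q2') : ℝ) : ℂ) * ee (η * k / (x * q1 * q2 * q2')) *
        ph x (-(η * k)) (q1 * q2 * q2') * ph q2' (-(η * k * j)) (x * x' * q2) := by
  have h1z : (q1 : ℤ) ≠ 0 := by exact_mod_cast h1.ne'
  obtain ⟨m0, s, t, hs, ht⟩ := exists_sol k (q1 := q1) (q2 := q2) (q2' := q2') (l := x) (l' := x') (j := j)
    (Nat.isCoprime_iff_coprime.2 hxq1.symm) (Nat.isCoprime_iff_coprime.2 hxq2.symm)
    (Nat.isCoprime_iff_coprime.2 hxq1'.symm) (Nat.isCoprime_iff_coprime.2 hxq2'.symm)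
    (Nat.isCoprime_iff_coprime.2 hqq) hj
  rw [Br_sum hFJ hFJx Y hY k q1 q2 x q2' x' H h1 h2 h2' hxq1 hxq1' hqq hxq2 hxq2' hY1 hY2 hH hs ht]
  obtain ⟨a, b, hab⟩ := Nat.isCoprime_iff_coprime.2 hxx
  refine Finset.sum_congr rfl fun η _ => ?_
  rw [phase_split h1 h2 h2' hx hs η, ee_add, ee_crt hx h2' hab]
  have hk := key_dvd h1z hs ht hj
  have hco1 : IsCoprime ((q1 : ℤ) * q2 * q2') ((x : ℕ) : ℤ) := by
    rw [show ((q1 : ℤ) * q2 * q2') = ((q1 * q2 * q2' : ℕ) : ℤ) by push_cast; rfl,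
      Nat.isCoprime_iff_coprime]
    exact Nat.Coprime.mul_left (Nat.Coprime.mul_left hxq1.symm hxq2.symm) hxx.symm
  have hco2 : IsCoprime ((x : ℤ) * x' * q2) ((q2' : ℕ) : ℤ) := by
    rw [show ((x : ℤ) * x' * q2) = ((x * x' * q2 : ℕ) : ℤ) by push_cast; rfl,
      Nat.isCoprime_iff_coprime]
    exact Nat.Coprime.mul_left (Nat.Coprime.mul_left hxx hxq2') hqq
  rw [ee_ph (V := x) hx hco1 η (-k) (b * s) ⟨q1 * q2 * s * (-a) + m0, by
      linear_combination (q1 : ℤ) * q2 * s * hab - hs⟩,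
    ee_ph (V := q2') h2' hco2 η (-(k * j)) (a * s) ⟨-(x' * q2 * s * b) + x * t, by
      linear_combination (x' : ℤ) * q2 * s * hab + hk⟩]
  rw [show η * -k = -(η * k) by ring, show η * -(k * j) = -(η * k * j) by ring]
  ring

/-- G10 -/
theorem brE (hFJ : Stmt_FJ) (hFJx : Stmt_FJ_exact) : Stmt_brE := brE_of hFJ hFJx

/-- G11 -/
theorem brS (hFJ : Stmt_FJ) (hFJx : Stmt_FJ_exact) : Stmt_brS := brS_of hFJ hFJx

end Pool.Agent.Helper4.BG
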