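import Pool.Agent.Helper57.BG.Stmts

/-!
# The weights (block G7 of A')
-/

open Finset

namespace Pool.Agent.Helper4.BG

open Pool.Agent.Helper57.BG

theorem tri_lip {n x y : ℝ} (hn : 0 ≤ n) (hx : 0 ≤ x) (hy : 0 ≤ y) :
    |x * max 0 (1 - n * x) - y * max 0 (1 - n * y)| ≤ |x - y| := by
  rcases le_total (n * x) 1 with h1 | h1 <;> rcases le_total (n * y) 1 with h2 | h2
  · rw [max_eq_right (by linarith), max_eq_right (by linarith)]
    have e : x * (1 - n * x) - y * (1 - n * y) = (x - y) * (1 - n * (x + y)) := by ring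
    rw [e, abs_mul]
    have h3 : |1 - n * (x + y)| ≤ 1 := by
      have : 0 ≤ n * (x + y) := by positivity
      rw [abs_le]
      constructor <;> nlinarith
    calc |x - y| * |1 - n * (x + y)| ≤ |x - y| * 1 := mul_le_mul_of_nonneg_left h3 (abs_nonneg _)
      _ = |x - y| := mul_one _
  · rw [max_eq_right (by linarith), max_eq_left (by linarith), mul_zero, sub_zero,
      abs_of_nonneg (mul_nonneg hx (by linarith))]
    rw [abs_sub_comm]
    have h3 : x * (1 - n * x) ≤ x * (n * (y - x)) := mul_le_mul_of_nonneg_left (by linarith) hx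
    have h4 : x ≤ y ∨ y ≤ x := le_total _ _
    rcases h4 with h4 | h4
    · rw [abs_of_nonneg (by linarith)]
      nlinarith
    · have h5 : n * y ≤ n * x := mul_le_mul_of_nonneg_left h4 hn
      have h6 : 1 - n * x = 0 := by linarith
      rw [h6, mul_zero]
      exact abs_nonneg _
  · rw [max_eq_left (by linarith), max_eq_right (by linarith), mul_zero, zero_sub, abs_neg,
      abs_of_nonneg (mul_nonneg hy (by linarith))]
    have h3 : y * (1 - n * y) ≤ y * (n * (x - y)) := mul_le_mul_of_nonneg_left (by linarith) hy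
    rcases le_total y x with h4 | h4
    · rw [abs_of_nonneg (by linarith)]
      nlinarith
    · have h5 : n * x ≤ n * y := mul_le_mul_of_nonneg_left h4 hn
      have h6 : 1 - n * y = 0 := by linarith
      rw [h6, mul_zero]
      exact abs_nonneg _
  · rw [max_eq_left (by linarith), max_eq_left (by linarith)]
    simp

theorem norm_ee (x : ℝ) : ‖ee x‖ = 1 := by
  unfold ee
  rw [show (2 * (Real.pi : ℂ) * (x : ℂ) * Complex.I) = ((2 * Real.pi * x : ℝ) : ℂ) * Complex.I by
    push_cast; ring]
  exact Complex.norm_exp_ofReal_mul_I _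

theorem ee_lip (x y : ℝ) : ‖ee x - ee y‖ ≤ 2 * Real.pi * |x - y| := by
  have e : ee x - ee y = ee y * (Complex.exp (Complex.I * ((2 * Real.pi * (x - y) : ℝ) : ℂ)) - 1) := by
    unfold ee
    rw [mul_sub, mul_one, ← Complex.exp_add]
    congr 2
    push_cast
    ring
  rw [e, norm_mul, norm_ee, one_mul]
  refine (Real.norm_exp_I_mul_ofReal_sub_one_le (x := 2 * Real.pi * (x - y))).trans ?_
  rw [Real.norm_eq_abs, abs_mul, abs_of_pos (by positivity : (0 : ℝ) < 2 * Real.pi)]

/-- G7 -/
theorem FFx : Stmt_FFx := by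
  intro A u P θ hA hu hP hθ η
  have hP0 : 0 < P := by linarith
  have hFe : ∀ s, FF A η (u * s) = (A / (u * s)) * max 0 (1 - |(η : ℝ)| * (A / (u * s))) := fun s => rfl
  have hx0 : ∀ s, P < s → 0 ≤ A / (u * s) := fun s hs => by
    have : 0 < s := by linarith
    positivity
  have hxP : ∀ s, P < s → A / (u * s) ≤ A / (u * P) := fun s hs => by
    have : 0 < s := by linarith
    apply div_le_div_of_nonneg_left hA (by positivity)
    exact mul_le_mul_of_nonneg_left hs.le hu.le
  have hF : ∀ s, P < s → |FF A η (u * s)| ≤ A / (u * P) := by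
    intro s hs
    rw [hFe, abs_of_nonneg (mul_nonneg (hx0 s hs) (le_max_left _ _))]
    refine (mul_le_of_le_one_right (hx0 s hs) ?_).trans (hxP s hs)
    apply max_le (by norm_num)
    have := mul_nonneg (abs_nonneg (η : ℝ)) (hx0 s hs)
    linarith
  have hAu : 0 ≤ A / (u * P) := by positivity
  have e8 : 8 * A / (u * P) = 8 * (A / (u * P)) := by ring
  refine ⟨fun s hs _ => ?_, fun s t hs _ ht _ => ?_⟩
  · rw [norm_mul, norm_ee, mul_one, Complex.norm_real, Real.norm_eq_abs, e8]
    have := hF s hs
    linarith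
  · have hs0 : 0 < s := by linarith
    have ht0 : 0 < t := by linarith
    have hst : |1 / s - 1 / t| ≤ |s - t| / P ^ 2 := by
      have e1 : 1 / s - 1 / t = (t - s) / (s * t) := by field_simp
      rw [e1, abs_div, abs_sub_comm, abs_of_pos (by positivity : (0 : ℝ) < s * t)]
      apply div_le_div_of_nonneg_left (abs_nonneg _) (by positivity)
      nlinarith
    have h1 : |FF A η (u * s) - FF A η (u * t)| ≤ A / u * (|s - t| / P ^ 2) := by
      rw [hFe, hFe]
      refine (tri_lip (abs_nonneg _) (hx0 s hs) (hx0 t ht)).trans ?_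
      have e1 : A / (u * s) - A / (u * t) = A / u * (1 / s - 1 / t) := by field_simp
      rw [e1, abs_mul, abs_of_nonneg (by positivity : (0 : ℝ) ≤ A / u)]
      exact mul_le_mul_of_nonneg_left hst (by positivity)
    have h2 : ‖ee (θ / s) - ee (θ / t)‖ ≤ 2 * Real.pi * (P * (|s - t| / P ^ 2)) := by
      refine (ee_lip _ _).trans ?_
      have e1 : θ / s - θ / t = θ * (1 / s - 1 / t) := by ring
      rw [e1, abs_mul]
      exact mul_le_mul_of_nonneg_left (mul_le_mul hθ hst (abs_nonneg _) hP0.le) (by positivity)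
    have e2 : (FF A η (u * s) : ℂ) * ee (θ / s) - (FF A η (u * t) : ℂ) * ee (θ / t)
        = ((FF A η (u * s) - FF A η (u * t) : ℝ) : ℂ) * ee (θ / s)
          + (FF A η (u * t) : ℂ) * (ee (θ / s) - ee (θ / t)) := by
      push_cast
      ring
    rw [e2]
    refine (norm_add_le _ _).trans ?_
    rw [norm_mul, norm_mul, norm_ee, mul_one, Complex.norm_real, Complex.norm_real,
      Real.norm_eq_abs, Real.norm_eq_abs]
    have h3 : |FF A η (u * t)| * ‖ee (θ / s) - ee (θ / t)‖
        ≤ A / (u * P) * (2 * Real.pi * (P * (|s - t| / P ^ 2))) :=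
      mul_le_mul (hF t ht) h2 (norm_nonneg _) hAu
    have e3 : A / (u * P) * (2 * Real.pi * (P * (|s - t| / P ^ 2)))
        = 2 * Real.pi * (A / (u * P) * (|s - t| / P)) := by
      field_simp
    have e4 : A / u * (|s - t| / P ^ 2) = A / (u * P) * (|s - t| / P) := by
      field_simp
    have h4 : 0 ≤ A / (u * P) * (|s - t| / P) := by positivity
    have h5 : 8 * A / (u * P) * |s - t| / P = 8 * (A / (u * P) * (|s - t| / P)) := by
      field_simp
    rw [h5]
    rw [e3] at h3
    rw [e4] at h1
    have hpi := Real.pi_lt_d2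
    nlinarith

end Pool.Agent.Helper4.BG
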