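import Pool.Agent.Helper57.BG.P5

/-!
# P4: the pairs with `l = l'`
-/

open Finset

namespace Pool.Agent.Helper4.BG.P4

open Pool.Agent.Helper57.BG Pool.Agent.Helper57.BG.PD

variable {p : PD}

/-- the outer variables `(q1, qa, wa)` -/
noncomputable def XD (p : PD) : Finset (ℕ × ℕ × ℕ) := p.Q1s ×ˢ p.QQ ×ˢ p.W

/-- the condition -/
def CD (l q : ℕ) (x : ℕ × ℕ × ℕ) (w : ℕ) : Prop :=
  ¬ l ∣ x.2.1 * x.2.2 ∧ Nat.Coprime (x.2.1 * x.2.2) (q * w) ∧ ¬ l ∣ q * w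

/-- the outer condition -/
def OutD (l q : ℕ) (x : ℕ × ℕ × ℕ) : Prop := ¬ l ∣ x.2.1 * x.2.2 ∧ Nat.Coprime (x.2.1 * x.2.2) q

/-- the term -/
noncomputable def TD (p : PD) (η : ℤ) (l q : ℕ) (x : ℕ × ℕ × ℕ) (w : ℕ) : ℂ :=
  p.cc (x.2.1, x.2.2, l) * (starRingEnd ℂ) (p.cc (q, w, l)) *
   (((FF (4 * p.M / p.Q1) η (((x.2.1 * x.2.2 : ℕ) : ℝ) * ((q * w : ℕ) : ℝ)) : ℝ) : ℂ) *
    ee (η * p.k / (l * x.1 * ((x.2.1 * x.2.2 : ℕ) : ℝ) * ((q * w : ℕ) : ℝ))) *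
    ph l (-(η * p.k)) (x.1 * ((x.2.1 * x.2.2 : ℕ) : ℤ) * ((q * w : ℕ) : ℤ)))

open Classical in
theorem Td_eq : p.Td = ∑ l ∈ p.LL, ∑ q ∈ p.QQ, ∑ x ∈ XD p, ∑ w ∈ p.W,
    (if CD l q x w then p.cc (x.2.1, x.2.2, l) * (starRingEnd ℂ) (p.cc (q, w, l)) *
      ((p.br x.1 (x.2.1, x.2.2, l) (q, w, l) : ℝ) : ℂ) else 0) := by
  have hR : ∑ l ∈ p.LL, ∑ q ∈ p.QQ, ∑ x ∈ XD p, ∑ w ∈ p.W,
      (if CD l q x w then p.cc (x.2.1, x.2.2, l) * (starRingEnd ℂ) (p.cc (q, w, l)) *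
        ((p.br x.1 (x.2.1, x.2.2, l) (q, w, l) : ℝ) : ℂ) else 0) =
      ∑ y ∈ (p.LL ×ˢ p.QQ ×ˢ XD p ×ˢ p.W).filter (fun y => CD y.1 y.2.1 y.2.2.1 y.2.2.2),
        p.cc (y.2.2.1.2.1, y.2.2.1.2.2, y.1) * (starRingEnd ℂ) (p.cc (y.2.1, y.2.2.2, y.1)) *
        ((p.br y.2.2.1.1 (y.2.2.1.2.1, y.2.2.1.2.2, y.1) (y.2.1, y.2.2.2, y.1) : ℝ) : ℂ) := by
    rw [sum_filter, sum_product]
    refine sum_congr rfl (fun l _ => ?_)
    rw [sum_product]
    refine sum_congr rfl (fun q _ => ?_)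
    rw [sum_product]
  rw [hR, Td, ← sum_product' p.Q1s ((p.I ×ˢ p.I).filter
    (fun ii => Nat.Coprime (ii.1.1 * ii.1.2.1) (ii.2.1 * ii.2.2.1) ∧ ii.1.2.2 = ii.2.2.2))
      (fun q1 ii => p.cc ii.1 * (starRingEnd ℂ) (p.cc ii.2) * ((p.br q1 ii.1 ii.2 : ℝ) : ℂ))]
  refine sum_nbij'
    (fun z => (z.2.1.2.2, z.2.2.1, (z.1, z.2.1.1, z.2.1.2.1), z.2.2.2.1))
    (fun y => (y.2.2.1.1, ((y.2.2.1.2.1, y.2.2.1.2.2, y.1), (y.2.1, y.2.2.2, y.1)))) ?_ ?_ ?_ ?_ ?_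
  · rintro ⟨q1, ⟨qa, wa, l⟩, ⟨q, w, l'⟩⟩ hz
    simp only [I, mem_product, mem_filter] at hz
    obtain ⟨z1, ⟨⟨⟨z2, z3, z4⟩, z5⟩, ⟨z6, z7, z8⟩, z9⟩, z10, z11⟩ := hz
    subst z11
    rw [mem_filter]
    simp only [mem_product, XD, CD]
    tauto
  · rintro ⟨l, q, ⟨q1, qa, wa⟩, w⟩ hz
    rw [mem_filter] at hz
    simp only [mem_product, XD, CD] at hz
    simp only [I, mem_product, mem_filter]
    tauto
  · rintro ⟨q1, ⟨qa, wa, l⟩, ⟨q, w, l'⟩⟩ hz
    simp only [I, mem_product, mem_filter] at hz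
    obtain ⟨z1, ⟨⟨⟨z2, z3, z4⟩, z5⟩, ⟨z6, z7, z8⟩, z9⟩, z10, z11⟩ := hz
    subst z11
    rfl
  · rintro ⟨l, q, ⟨q1, qa, wa⟩, w⟩ hz
    rfl
  · rintro ⟨q1, ⟨qa, wa, l⟩, ⟨q, w, l'⟩⟩ hz
    simp only [I, mem_product, mem_filter] at hz
    obtain ⟨z1, ⟨⟨⟨z2, z3, z4⟩, z5⟩, ⟨z6, z7, z8⟩, z9⟩, z10, z11⟩ := hz
    subst z11
    rfl

theorem cd_iff (h : p.Ok) {l q : ℕ} (hl : l ∈ p.LL) (hq : q ∈ p.QQ) (hlq : ¬ l ∣ q)
    {x : ℕ × ℕ × ℕ} (hx : x ∈ XD p) {w : ℕ} (hw : w ∈ p.W) :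
    CD l q x w ↔ (OutD l q x ∧ Nat.Coprime w l ∧ w ≠ x.2.2) := by
  obtain ⟨q1, qa, wa⟩ := x
  simp only [XD, mem_product] at hx
  obtain ⟨h1, h2, h3⟩ := hx
  have hlp := (h.hLL l hl).1
  have hwp := (h.hW w hw).1
  have hwap := (h.hW wa h3).1
  have hwqa := h.hWQ w hw qa h2
  have e1 : ¬ l ∣ q * w ↔ Nat.Coprime w l := by
    rw [hlp.dvd_mul, Nat.coprime_comm, Nat.Prime.coprime_iff_not_dvd hlp]
    tauto
  have e2 : Nat.Coprime (qa * wa) (q * w) ↔ Nat.Coprime (qa * wa) q ∧ Nat.Coprime (qa * wa) w :=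
    Nat.coprime_mul_iff_right
  have e3 : Nat.Coprime (qa * wa) w ↔ w ≠ wa := by
    rw [Nat.coprime_mul_iff_left, Nat.coprime_primes hwap hwp]
    constructor
    · rintro ⟨-, h5⟩ rfl
      exact h5 rfl
    · intro h5
      exact ⟨hwqa.symm, fun h6 => h5 h6.symm⟩
  simp only [CD, OutD]
  rw [e1, e2, e3]
  tauto

theorem q1_coprime (h : p.Ok) {q1 l : ℕ} (h1 : q1 ∈ p.Q1s) (hl : l ∈ p.LL) : Nat.Coprime l q1 := by
  obtain ⟨hq1, hq1a, hq1b, hq1c⟩ := h.q1_pos h1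
  have hlp := h.hLL l hl
  rw [Nat.Prime.coprime_iff_not_dvd hlp.1]
  intro hd
  have := Nat.le_of_dvd hq1 hd
  have : (l : ℝ) ≤ q1 := by exact_mod_cast this
  linarith [hlp.2.1, h.hL]

theorem ph_zero (V : ℕ) (n : ℤ) : ph V 0 n = 1 := by
  simp [ph]

theorem term_eqD (hS' : Stmt_brS) (h : p.Ok) {l q : ℕ} (hl : l ∈ p.LL) (hq : q ∈ p.QQ)
    {x : ℕ × ℕ × ℕ} (hx : x ∈ XD p) {w : ℕ} (hw : w ∈ p.W) (hc : CD l q x w) :
    p.cc (x.2.1, x.2.2, l) * (starRingEnd ℂ) (p.cc (q, w, l)) *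
      ((p.br x.1 (x.2.1, x.2.2, l) (q, w, l) : ℝ) : ℂ) =
    ∑ η ∈ (Icc (-(p.H : ℤ)) p.H).erase 0, TD p η l q x w := by
  obtain ⟨q1, qa, wa⟩ := x
  simp only [XD, mem_product] at hx
  obtain ⟨h1, h2, h3⟩ := hx
  simp only [CD] at hc
  obtain ⟨c1, c2, c3⟩ := hc
  have hlp := h.hLL l hl
  obtain ⟨hq1, hq1a, hq1b, hq1c⟩ := h.q1_pos h1
  have hQ1 := h.hQ1
  have hQ := h.hQ
  have hP := h.hP
  have hM := h.hM
  have hL2 := h.L2
  have hq1r : (0 : ℝ) < q1 := by exact_mod_cast hq1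
  have hY : (0 : ℝ) < 4 * p.M * q1 / p.Q1 := by positivity
  obtain ⟨a1, a2⟩ := h.q2 h2 h3
  obtain ⟨b1, b2⟩ := h.q2 hq hw
  have hlq1 := q1_coprime h h1 hl
  have hYb : ∀ u : ℕ, (u : ℝ) ≤ 4 * (p.Q * p.P) → ((q1 * u : ℕ) : ℝ) ≤ 4 * p.M * q1 / p.Q1 := by
    intro u hu
    rw [le_div_iff₀ (by linarith)]
    push_cast
    have : (q1 : ℝ) * u * p.Q1 ≤ q1 * (4 * (p.Q * p.P)) * p.Q1 := by
      apply mul_le_mul_of_nonneg_right _ (by linarith)
      exact mul_le_mul_of_nonneg_left hu hq1r.le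
    have h5 : q1 * (4 * (p.Q1 * p.Q * p.P)) ≤ q1 * (4 * p.M) :=
      mul_le_mul_of_nonneg_left (by linarith [h.hRM]) hq1r.le
    linarith
  have hcl := (Nat.Prime.coprime_iff_not_dvd hlp.1).2 c1
  have hcl' := (Nat.Prime.coprime_iff_not_dvd hlp.1).2 c3
  have hkey := hS' (4 * p.M * q1 / p.Q1) hY p.k q1 (qa * wa) l (q * w) l 0 p.H hq1 a1 b1
    hlp.1.pos hlp.1.pos hlq1 hlq1 c2 hcl hcl' hcl' (by ring) (hYb _ a2) (hYb _ b2)
    (by
      have e1 : (q1 : ℝ) * ((qa * wa : ℕ) : ℝ) * ((q * w : ℕ) : ℝ) / (4 * p.M * q1 / p.Q1) =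
          p.Q1 * (((qa * wa : ℕ) : ℝ) * ((q * w : ℕ) : ℝ)) / (4 * p.M) := by
        field_simp
      rw [e1]
      have e2 : ((qa * wa : ℕ) : ℝ) * ((q * w : ℕ) : ℝ) ≤ (4 * (p.Q * p.P)) * (4 * (p.Q * p.P)) :=
        mul_le_mul a2 b2 (by positivity) (by positivity)
      unfold H
      refine le_trans ?_ (Nat.le_ceil _)
      rw [div_le_div_iff₀ (by positivity) (by positivity)]
      have e3 : p.Q1 * (((qa * wa : ℕ) : ℝ) * ((q * w : ℕ) : ℝ)) ≤
          p.Q1 * ((4 * (p.Q * p.P)) * (4 * (p.Q * p.P))) := mul_le_mul_of_nonneg_left e2 (by linarith)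
      have e4 := mul_le_mul_of_nonneg_right e3 (by linarith : (0 : ℝ) ≤ p.M)
      nlinarith)
  have hbr : ((p.br q1 (qa, wa, l) (q, w, l) : ℝ) : ℂ) = _ := hkey
  rw [hbr, mul_sum]
  refine sum_congr rfl (fun η _ => ?_)
  unfold TD
  have e1 : 4 * p.M * q1 / p.Q1 / q1 = 4 * p.M / p.Q1 := by
    field_simp
  rw [e1, mul_zero, neg_zero, ph_zero, mul_one]

theorem multD (h : p.Ok) {l q : ℕ} [DecidablePred (OutD l q)] (n : ℕ) :
    (((((XD p).filter (OutD l q)).filter (fun x => x.1 * (x.2.1 * x.2.2) = n)).card : ℕ) : ℝ) ≤ p.R0 := by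
  classical
  set S := (((XD p).filter (OutD l q)).filter (fun x => x.1 * (x.2.1 * x.2.2) = n)) with hS
  rcases S.eq_empty_or_nonempty with he | ⟨x0, hx0⟩
  · rw [he]
    simp only [card_empty, Nat.cast_zero]
    linarith [h.R0_one]
  · have hmem : ∀ x ∈ S, x ∈ XD p ∧ x.1 * (x.2.1 * x.2.2) = n := by
      intro x hx
      rw [hS, mem_filter, mem_filter] at hx
      exact ⟨hx.1.1, hx.2⟩
    have hn : 1 ≤ n ∧ (n : ℝ) ≤ 16 * p.L * (p.Q1 * p.Q * p.P) := by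
      obtain ⟨a1, a3⟩ := hmem x0 hx0
      simp only [XD, mem_product] at a1
      obtain ⟨b1, b2, b3⟩ := a1
      have c1 := h.q1_pos b1
      have c2 := h.hQQ _ b2
      have c3 := h.hW _ b3
      have hL := h.L2
      have hQ := h.hQ
      have hQ1 := h.hQ1
      have hP := h.hP
      have d1 : (0 : ℝ) < x0.1 := by linarith [c1.2.1]
      have d2 : (0 : ℝ) < x0.2.1 := by linarith [c2.2.1]
      have d3 : (0 : ℝ) < x0.2.2 := by linarith [c3.2.1]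
      have hn' : (n : ℝ) = x0.1 * (x0.2.1 * x0.2.2) := by rw [← a3]; push_cast; ring
      constructor
      · have : (0 : ℝ) < n := by rw [hn']; positivity
        exact_mod_cast this
      · rw [hn']
        have g1 : (x0.2.1 : ℝ) * x0.2.2 ≤ (2 * p.Q) * (2 * p.P) :=
          mul_le_mul c2.2.2.1 c3.2.2 d3.le (by linarith)
        have g2 : (x0.1 : ℝ) * (x0.2.1 * x0.2.2) ≤ (2 * p.Q1) * ((2 * p.Q) * (2 * p.P)) :=
          mul_le_mul c1.2.2.1 g1 (by positivity) (by linarith)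
        have g4 : 0 ≤ p.Q1 * p.Q * p.P := by positivity
        nlinarith
    refine le_trans ?_ (h.hR0 n hn.1 hn.2)
    have : S.card ≤ n.divisors.card := by
      apply card_le_card_of_injOn (fun x => x.1)
      · intro x hx
        have := (hmem x hx).2
        simp only [mem_coe, Nat.mem_divisors]
        exact ⟨⟨_, this.symm⟩, by omega⟩
      · intro x hx y hy hxy
        obtain ⟨a1, a3⟩ := hmem x hx
        obtain ⟨b1, b3⟩ := hmem y hy
        obtain ⟨q1, qa, wa⟩ := x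
        obtain ⟨r1, ra, va⟩ := y
        simp only at hxy a1 a3 b1 b3
        subst hxy
        simp only [XD, mem_product] at a1 b1
        have hl0 : 0 < q1 := (h.q1_pos a1.1).1
        have e1 : qa * wa = ra * va := Nat.eq_of_mul_eq_mul_left hl0 (a3.trans b3.symm)
        obtain ⟨e2, e3⟩ := h.inj a1.2.1 a1.2.2 b1.2.1 b1.2.2 e1
        simp [e2, e3]
    exact_mod_cast this

theorem cardXD (h : p.Ok) : (((XD p).card : ℕ) : ℝ) ≤ 8 * (p.Q1 * p.Q * p.P) := by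
  have h0 : ((p.Q1s.card : ℕ) : ℝ) ≤ 2 * p.Q1 :=
    card_le57 h.hQ1 (fun n hn => ⟨(h.q1_pos hn).2.1, (h.q1_pos hn).2.2.1⟩)
  have h3 := h.cardQQ
  have h4 := h.cardW
  have hQ := h.hQ
  have hQ1 := h.hQ1
  have hP := h.hP
  have h1 : (XD p).card = p.Q1s.card * (p.QQ.card * p.W.card) := by
    unfold XD
    rw [card_product, card_product]
  rw [h1]
  push_cast
  calc (p.Q1s.card : ℝ) * ((p.QQ.card : ℝ) * p.W.card) ≤ (2 * p.Q1) * ((2 * p.Q) * (2 * p.P)) := by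
        refine mul_le_mul h0 (mul_le_mul h3 h4 (by positivity) (by linarith)) (by positivity) (by linarith)
    _ = 8 * (p.Q1 * p.Q * p.P) := by ring

/-- the bound for one frequency -/
noncomputable def KD (p : PD) : ℝ := (32 * p.M / (p.Q1 * (p.Q * p.P) ^ 2)) *
  (46 * (p.Q1 * p.Q * p.P) * p.P * Real.sqrt (p.R0 * (1 / p.P + 1 / p.L)))

theorem KD_nonneg (h : p.Ok) : 0 ≤ KD p := by
  unfold KD
  have a1 := h.hQ1
  have a2 := h.hQ
  have a3 := h.hP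
  have a4 := h.hM
  positivity

open Classical in
theorem coreD (hS : Stmt_SC0F) (hF : Stmt_FFx) (h : p.Ok) (hH : (p.H : ℝ) * |(p.k : ℝ)| ≤ p.L)
    {η : ℤ} (hη : η ≠ 0) (hηH : |(η : ℝ)| ≤ p.H) {l q : ℕ} (hl : l ∈ p.LL) (hq : q ∈ p.QQ) :
    ‖∑ x ∈ XD p, ∑ w ∈ p.W, (if CD l q x w then TD p η l q x w else 0)‖ ≤ KD p := by
  have hQ1 := h.hQ1
  have hQ := h.hQ
  have hP := h.hP
  have hM := h.hM
  have hL2 := h.L2
  by_cases hlq : l ∣ q
  · have : ∀ x ∈ XD p, ∀ w ∈ p.W, (if CD l q x w then TD p η l q x w else 0) = 0 := by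
      intro x _ w _
      rw [if_neg]
      intro hc
      exact hc.2.2 (hlq.mul_right w)
    rw [sum_eq_zero (fun x hx => sum_eq_zero (fun w hw => this x hx w hw)), norm_zero]
    exact KD_nonneg h
  set X := (XD p).filter (OutD l q) with hX
  set nn : ℕ × ℕ × ℕ → ℕ := fun x => x.1 * (x.2.1 * x.2.2) with hnn
  set uu : ℕ × ℕ × ℕ → ℝ := fun x => ((x.2.1 * x.2.2 : ℕ) : ℝ) * q with huu
  set th : ℕ × ℕ × ℕ → ℝ := fun x => η * p.k / (l * x.1 * ((x.2.1 * x.2.2 : ℕ) : ℝ) * q) with hth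
  set F : ℕ × ℕ × ℕ → ℝ → ℂ := fun x s =>
    ((FF (4 * p.M / p.Q1) η (uu x * s) : ℝ) : ℂ) * ee (th x / s) with hFdef
  set B : ℝ := 32 * p.M / (p.Q1 * (p.Q * p.P) ^ 2) with hB
  set c : ℤ := -(η * p.k) with hc
  have hlp := (h.hLL l hl).1
  have hl0 : (0 : ℝ) < l := by linarith [(h.hLL l hl).2.1]
  have hqq := h.hQQ q hq
  have hq0 : (0 : ℝ) < q := by linarith [hqq.2.1]
  have hηk : |(η : ℝ) * p.k| ≤ p.L := by
    rw [abs_mul]
    exact (mul_le_mul_of_nonneg_right hηH (abs_nonneg _)).trans hH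
  -- the inner sum
  have step1 : ∀ x ∈ XD p, ∑ w ∈ p.W, (if CD l q x w then TD p η l q x w else 0) =
      if OutD l q x then
        (p.cc (x.2.1, x.2.2, l) * (starRingEnd ℂ) (p.b q * p.be l)) *
        ∑ w ∈ p.W.filter (fun w => Nat.Coprime w l ∧ w ≠ x.2.2),
          (starRingEnd ℂ) (p.lam w) * F x w * ph l c (q * nn x * w) else 0 := by
    intro x hx
    by_cases ho : OutD l q x
    · rw [if_pos ho, mul_sum]
      rw [← sum_filter]
      have hfil : p.W.filter (fun w => CD l q x w) =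
          p.W.filter (fun w => Nat.Coprime w l ∧ w ≠ x.2.2) := by
        ext w
        simp only [mem_filter]
        constructor
        · rintro ⟨h1, h2⟩
          exact ⟨h1, ((cd_iff h hl hq hlq hx h1).1 h2).2⟩
        · rintro ⟨h1, h3⟩
          exact ⟨h1, (cd_iff h hl hq hlq hx h1).2 ⟨ho, h3⟩⟩
      rw [hfil]
      refine sum_congr rfl (fun w hw => ?_)
      simp only [mem_filter] at hw
      have hw0 : (0 : ℝ) < w := by linarith [(h.hW w hw.1).2.1]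
      unfold TD
      have e1 : p.cc (q, w, l) = p.b q * p.lam w * p.be l := rfl
      have e2 : FF (4 * p.M / p.Q1) η (((x.2.1 * x.2.2 : ℕ) : ℝ) * ((q * w : ℕ) : ℝ)) =
          FF (4 * p.M / p.Q1) η (uu x * w) := by
        congr 1
        simp only [huu]
        push_cast
        ring
      have e3 : (η : ℝ) * p.k / (l * x.1 * ((x.2.1 * x.2.2 : ℕ) : ℝ) * ((q * w : ℕ) : ℝ)) = th x / w := by
        simp only [hth]
        rw [div_div]
        congr 1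
        push_cast
        ring
      have e4 : ph l c (x.1 * ((x.2.1 * x.2.2 : ℕ) : ℤ) * ((q * w : ℕ) : ℤ)) =
          ph l c (q * (nn x : ℤ) * w) := by
        congr 1
        simp only [hnn]
        push_cast
        ring
      rw [e1, e2, e3, e4]
      simp only [map_mul, hFdef]
      ring
    · rw [if_neg ho]
      refine sum_eq_zero (fun w hw => ?_)
      rw [if_neg]
      intro h2
      exact ho ((cd_iff h hl hq hlq hx hw).1 h2).1
  rw [sum_congr rfl step1, ← sum_filter]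
  -- bound
  have step2 : ‖∑ x ∈ (XD p).filter (fun x => OutD l q x),
      (p.cc (x.2.1, x.2.2, l) * (starRingEnd ℂ) (p.b q * p.be l)) *
        ∑ w ∈ p.W.filter (fun w => Nat.Coprime w l ∧ w ≠ x.2.2),
          (starRingEnd ℂ) (p.lam w) * F x w * ph l c (q * nn x * w)‖ ≤
      ∑ x ∈ X, ‖∑ w ∈ p.W.filter (fun w => Nat.Coprime w l ∧ w ≠ x.2.2),
          (starRingEnd ℂ) (p.lam w) * F x w * ph l c (q * nn x * w)‖ := by
    refine (norm_sum_le _ _).trans (sum_le_sum (fun x hx => ?_))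
    rw [norm_mul]
    have h1 : ‖p.cc (x.2.1, x.2.2, l) * (starRingEnd ℂ) (p.b q * p.be l)‖ ≤ 1 := by
      rw [norm_mul, RCLike.norm_conj, norm_mul]
      have a1 := h.cc_le (x.2.1, x.2.2, l)
      have a2 := h.hb q
      have a3 := h.hbe l
      calc _ ≤ (1 : ℝ) * (1 * 1) := by
            refine mul_le_mul a1 (mul_le_mul a2 a3 (norm_nonneg _) zero_le_one) (by positivity) zero_le_one
        _ = 1 := by norm_num
    exact mul_le_of_le_one_left (norm_nonneg _) h1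
  refine step2.trans ?_
  have hxprops : ∀ x ∈ X, x ∈ XD p ∧ OutD l q x := fun x hx => by simpa [hX] using hx
  have hu : ∀ x ∈ X, p.Q * p.P * p.Q ≤ uu x ∧ 0 < uu x := by
    intro x hx
    obtain ⟨a1, -⟩ := hxprops x hx
    simp only [XD, mem_product] at a1
    have b1 := (h.hQQ _ a1.2.1).2.1
    have b2 := (h.hW _ a1.2.2).2.1
    have : p.Q * p.P ≤ ((x.2.1 * x.2.2 : ℕ) : ℝ) := by
      push_cast
      exact mul_le_mul b1.le b2.le (by linarith) (by positivity)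
    have h3 : p.Q * p.P * p.Q ≤ uu x := by
      simp only [huu]
      exact mul_le_mul this hqq.2.1.le (by linarith) (by positivity)
    refine ⟨h3, lt_of_lt_of_le (by positivity) h3⟩
  have hthb : ∀ x ∈ X, |th x| ≤ p.P := by
    intro x hx
    obtain ⟨a1, -⟩ := hxprops x hx
    simp only [XD, mem_product] at a1
    have b1 := (h.hQQ _ a1.2.1).2.1
    have b2 := (h.hW _ a1.2.2).2.1
    have b3 := (h.q1_pos a1.1).2.1
    have b4 : p.L ≤ l := (h.hLL l hl).2.1.le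
    have c1 : (1 : ℝ) ≤ ((x.2.1 * x.2.2 : ℕ) : ℝ) := by
      push_cast
      nlinarith
    have c2 : p.L * 1 * 1 * 1 ≤ l * x.1 * ((x.2.1 * x.2.2 : ℕ) : ℝ) * q := by
      refine mul_le_mul (mul_le_mul (mul_le_mul b4 (by linarith) zero_le_one (by positivity)) c1 zero_le_one
        (by positivity)) (by linarith) zero_le_one (by positivity)
    simp only [hth]
    rw [abs_div, abs_of_pos (a := (l : ℝ) * x.1 * ((x.2.1 * x.2.2 : ℕ) : ℝ) * q) (by linarith)]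
    rw [div_le_iff₀ (by linarith)]
    nlinarith
  have hA : 0 ≤ 4 * p.M / p.Q1 := by positivity
  have hB0 : 0 ≤ B := by rw [hB]; positivity
  have hBu : ∀ x ∈ X, 8 * (4 * p.M / p.Q1) / (uu x * p.P) ≤ B := by
    intro x hx
    have h1 := (hu x hx).1
    have h2 := (hu x hx).2
    rw [hB]
    have : 8 * (4 * p.M / p.Q1) / (uu x * p.P) = 32 * p.M / (p.Q1 * (uu x * p.P)) := by
      field_simp
      ring
    rw [this]
    apply div_le_div_of_nonneg_left (by positivity) (by positivity)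
    refine mul_le_mul_of_nonneg_left ?_ (by linarith)
    nlinarith
  have hgcd : Int.gcd c l = 1 := by
    rw [Int.gcd_comm, ← Int.isCoprime_iff_gcd_eq_one]
    have hpz : Prime (l : ℤ) := Nat.prime_iff_prime_int.1 hlp
    rw [(Int.prime_iff_natAbs_prime.1 hpz |> fun _ => hpz.coprime_iff_not_dvd)]
    intro hd
    have hne : c ≠ 0 := by
      rw [hc]
      exact neg_ne_zero.2 (mul_ne_zero hη h.hk0)
    have h1 := Int.le_of_dvd (abs_pos.2 hne) ((dvd_abs _ _).2 hd)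
    have h2 : (l : ℝ) ≤ |(c : ℝ)| := by exact_mod_cast h1
    rw [hc] at h2
    push_cast at h2
    rw [abs_neg] at h2
    linarith [(h.hLL l hl).2.1]
  have key := hS p.W p.P hP (fun w hw => (h.hW w hw).2) l ⌊8 * (p.Q1 * p.Q * p.P)⌋₊ hlp.pos c q
    (by
      rw [Int.gcd_comm, ← Int.isCoprime_iff_gcd_eq_one, Nat.isCoprime_iff_coprime]
      exact (Nat.Prime.coprime_iff_not_dvd hlp).2 hlq)
    (fun w => (starRingEnd ℂ) (p.lam w)) (fun w => by rw [RCLike.norm_conj]; exact h.hlam w)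
    X nn (fun x => x.2.2) p.R0 B hB0
    (by
      intro x hx
      obtain ⟨a1, a2⟩ := hxprops x hx
      simp only [XD, mem_product] at a1
      have c1 := h.q1_pos a1.1
      have c2 := h.hQQ _ a1.2.1
      have c3 := h.hW _ a1.2.2
      have d1 : (0 : ℝ) < x.1 := by linarith [c1.2.1]
      have d2 : (0 : ℝ) < x.2.1 := by linarith [c2.2.1]
      have d3 : (0 : ℝ) < x.2.2 := by linarith [c3.2.1]
      refine ⟨?_, ?_, ?_⟩
      · have : (0 : ℝ) < (nn x : ℕ) := by simp only [hnn]; push_cast; positivity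
        exact_mod_cast this
      · apply Nat.le_floor
        simp only [hnn]
        push_cast
        have g1 : (x.2.1 : ℝ) * x.2.2 ≤ (2 * p.Q) * (2 * p.P) :=
          mul_le_mul c2.2.2.1 c3.2.2 d3.le (by linarith)
        have g2 : (x.1 : ℝ) * (x.2.1 * x.2.2) ≤ (2 * p.Q1) * ((2 * p.Q) * (2 * p.P)) :=
          mul_le_mul c1.2.2.1 g1 (by positivity) (by linarith)
        linarith
      · simp only [hnn]
        exact Nat.Coprime.mul_left (q1_coprime h a1.1 hl).symm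
          ((Nat.Prime.coprime_iff_not_dvd hlp).2 a2.1).symm)
    (fun n => multD h n)
    F
    (by
      intro x hx s hs1 hs2
      have := (hF (4 * p.M / p.Q1) (uu x) p.P (th x) hA (hu x hx).2 hP (hthb x hx) η).1 s hs1 hs2
      exact this.trans (hBu x hx))
    (by
      intro x hx s t hs1 hs2 ht1 ht2
      have := (hF (4 * p.M / p.Q1) (uu x) p.P (th x) hA (hu x hx).2 hP (hthb x hx) η).2 s t hs1 hs2 ht1 ht2
      refine this.trans ?_
      have hb := hBu x hx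
      gcongr)
  have hcard : (X.card : ℝ) ≤ 8 * (p.Q1 * p.Q * p.P) := by
    refine le_trans ?_ (cardXD h)
    exact_mod_cast card_le_card (filter_subset _ _)
  have hR0 := h.R0_one
  set A := ∑ x ∈ X, ‖∑ w ∈ p.W.filter (fun w => Nat.Coprime w l ∧ w ≠ x.2.2),
          (starRingEnd ℂ) (p.lam w) * F x w * ph l c (q * nn x * w)‖ with hAdef
  have hA0 : 0 ≤ A := sum_nonneg (fun x _ => norm_nonneg _)
  set R : ℝ := p.Q1 * p.Q * p.P with hR
  have hR1 : 1 ≤ R := by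
    have := mul_le_mul hQ1 hQ zero_le_one (by linarith)
    have := mul_le_mul this hP zero_le_one (by positivity)
    linarith
  have hLR : p.L ≤ R := h.hLR
  set ss : ℝ := 1 / p.P + 1 / p.L with hss
  have hss0 : 0 < ss := by positivity
  rw [hgcd] at key
  have hfin : A ^ 2 ≤ (B * (46 * R * p.P)) ^ 2 * (p.R0 * ss) := by
    refine key.trans ?_
    have hN : (⌊8 * R⌋₊ : ℝ) ≤ 8 * R := Nat.floor_le (by linarith)
    have hNl : (⌊8 * R⌋₊ : ℝ) + l ≤ 10 * R := by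
      have := (h.hLL l hl).2.2
      linarith
    have hPl : 2 * p.P + 2 * p.P * (p.P * ((1 : ℕ) : ℝ) / l) ≤ 2 * (p.P ^ 2 * ss) := by
      rw [Nat.cast_one, mul_one]
      have e1 : p.P / l ≤ p.P / p.L :=
        div_le_div_of_nonneg_left (by linarith) (by linarith) (h.hLL l hl).2.1.le
      have e2 : 2 * (p.P ^ 2 * ss) = 2 * p.P + 2 * p.P * (p.P / p.L) := by
        rw [hss]
        field_simp
      rw [e2]
      have := mul_le_mul_of_nonneg_left e1 (by linarith : (0 : ℝ) ≤ 2 * p.P)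
      linarith
    have hP2ss : 1 ≤ p.P ^ 2 * ss := by
      have e2 : p.P ^ 2 * ss = p.P + p.P * (p.P / p.L) := by
        rw [hss]
        field_simp
      rw [e2]
      have : 0 ≤ p.P * (p.P / p.L) := by positivity
      linarith
    have h1 : ((⌊8 * R⌋₊ : ℝ) + l) * (2 * p.P + 2 * p.P * (p.P * ((1 : ℕ) : ℝ) / l)) ≤
        10 * R * (2 * (p.P ^ 2 * ss)) := mul_le_mul hNl hPl (by positivity) (by linarith)
    have h2 : 6 * B ^ 2 * p.R0 * (((⌊8 * R⌋₊ : ℝ) + l) * (2 * p.P + 2 * p.P * (p.P * ((1 : ℕ) : ℝ) / l))) ≤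
        6 * B ^ 2 * p.R0 * (10 * R * (2 * (p.P ^ 2 * ss))) :=
      mul_le_mul_of_nonneg_left h1 (by positivity)
    have h3 : 2 * (X.card : ℝ) * (6 * B ^ 2 * p.R0 * (((⌊8 * R⌋₊ : ℝ) + l) *
        (2 * p.P + 2 * p.P * (p.P * ((1 : ℕ) : ℝ) / l)))) ≤
        2 * (8 * R) * (6 * B ^ 2 * p.R0 * (10 * R * (2 * (p.P ^ 2 * ss)))) :=
      mul_le_mul (by linarith) h2 (by positivity) (by linarith)
    have h4 : 2 * (X.card : ℝ) ^ 2 * B ^ 2 ≤ 2 * (8 * R) ^ 2 * B ^ 2 := by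
      have : (X.card : ℝ) ^ 2 ≤ (8 * R) ^ 2 := pow_le_pow_left₀ (by positivity) hcard 2
      have hb2 : 0 ≤ B ^ 2 := sq_nonneg _
      nlinarith
    have h5 : 2 * (8 * R) ^ 2 * B ^ 2 ≤ 128 * (R ^ 2 * B ^ 2) * (p.R0 * (p.P ^ 2 * ss)) := by
      have e3 : 1 ≤ p.R0 * (p.P ^ 2 * ss) := by
        have := mul_le_mul hR0 hP2ss zero_le_one (by linarith)
        linarith
      have e4 : 0 ≤ 128 * (R ^ 2 * B ^ 2) := by positivity
      calc 2 * (8 * R) ^ 2 * B ^ 2 = 128 * (R ^ 2 * B ^ 2) * 1 := by ring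
        _ ≤ _ := mul_le_mul_of_nonneg_left e3 e4
    have h6 : (B * (46 * R * p.P)) ^ 2 * (p.R0 * ss) =
        1920 * (R ^ 2 * B ^ 2) * (p.R0 * (p.P ^ 2 * ss)) + 128 * (R ^ 2 * B ^ 2) * (p.R0 * (p.P ^ 2 * ss)) +
          68 * (R ^ 2 * B ^ 2) * (p.R0 * (p.P ^ 2 * ss)) := by ring
    have h7 : 0 ≤ 68 * (R ^ 2 * B ^ 2) * (p.R0 * (p.P ^ 2 * ss)) := by positivity
    have h8 : 2 * (8 * R) * (6 * B ^ 2 * p.R0 * (10 * R * (2 * (p.P ^ 2 * ss)))) =
        1920 * (R ^ 2 * B ^ 2) * (p.R0 * (p.P ^ 2 * ss)) := by ring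
    rw [h6]
    linarith
  unfold KD
  rw [← hB, ← hR, ← hss]
  have hBR : 0 ≤ B * (46 * R * p.P) := by positivity
  have h2 : A ≤ Real.sqrt ((B * (46 * R * p.P)) ^ 2 * (p.R0 * ss)) := Real.le_sqrt_of_sq_le hfin
  rw [Real.sqrt_mul (sq_nonneg _), Real.sqrt_sq hBR] at h2
  linarith

theorem p4 (hS' : Stmt_brS) (hF : Stmt_FFx) (hS : Stmt_SC0F)
    (p : PD) (h : p.Ok) (hH : (p.H : ℝ) * |(p.k : ℝ)| ≤ p.L) :
    ‖p.Td‖ ≤ 12000 * p.H * p.M * p.L * Real.sqrt (p.R0 * (1 / p.P + 1 / p.L)) := by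
  classical
  rw [Td_eq]
  have hQ1 := h.hQ1
  have hQ := h.hQ
  have hP := h.hP
  have hM := h.hM
  have hL2 := h.L2
  have key : ∀ l ∈ p.LL, ∀ q ∈ p.QQ, ‖∑ x ∈ XD p, ∑ w ∈ p.W,
      (if CD l q x w then p.cc (x.2.1, x.2.2, l) * (starRingEnd ℂ) (p.cc (q, w, l)) *
        ((p.br x.1 (x.2.1, x.2.2, l) (q, w, l) : ℝ) : ℂ) else 0)‖ ≤ (2 * p.H) * KD p := by
    intro l hl q hq
    have e1 : ∑ x ∈ XD p, ∑ w ∈ p.W,
      (if CD l q x w then p.cc (x.2.1, x.2.2, l) * (starRingEnd ℂ) (p.cc (q, w, l)) *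
        ((p.br x.1 (x.2.1, x.2.2, l) (q, w, l) : ℝ) : ℂ) else 0) =
        ∑ x ∈ XD p, ∑ w ∈ p.W, ∑ η ∈ (Icc (-(p.H : ℤ)) p.H).erase 0,
          (if CD l q x w then TD p η l q x w else 0) := by
      refine sum_congr rfl (fun x hx => sum_congr rfl (fun w hw => ?_))
      by_cases hc : CD l q x w
      · rw [if_pos hc, term_eqD hS' h hl hq hx hw hc]
        simp only [hc, if_true]
      · rw [if_neg hc]
        simp only [hc, if_false, sum_const_zero]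
    have e2 : ∑ x ∈ XD p, ∑ w ∈ p.W, ∑ η ∈ (Icc (-(p.H : ℤ)) p.H).erase 0,
          (if CD l q x w then TD p η l q x w else 0) =
        ∑ η ∈ (Icc (-(p.H : ℤ)) p.H).erase 0, ∑ x ∈ XD p, ∑ w ∈ p.W,
          (if CD l q x w then TD p η l q x w else 0) := by
      have a1 : ∀ x ∈ XD p, ∑ w ∈ p.W, ∑ η ∈ (Icc (-(p.H : ℤ)) p.H).erase 0,
          (if CD l q x w then TD p η l q x w else 0) =
          ∑ η ∈ (Icc (-(p.H : ℤ)) p.H).erase 0, ∑ w ∈ p.W,
          (if CD l q x w then TD p η l q x w else 0) := fun x _ => sum_comm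
      rw [sum_congr rfl a1, sum_comm]
    rw [e1, e2]
    refine (norm_sum_le _ _).trans ?_
    have hb2 : ∀ η ∈ (Icc (-(p.H : ℤ)) p.H).erase 0, ‖∑ x ∈ XD p, ∑ w ∈ p.W,
        (if CD l q x w then TD p η l q x w else 0)‖ ≤ KD p := by
      intro η hη
      rw [mem_erase, mem_Icc] at hη
      have hηH : |(η : ℝ)| ≤ p.H := by
        have : |η| ≤ (p.H : ℤ) := abs_le.2 hη.2
        exact_mod_cast this
      exact coreD hS hF h hH hη.1 hηH hl hq
    refine (sum_le_sum hb2).trans ?_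
    rw [sum_const, nsmul_eq_mul, card_Icc_erase]
  have hKD := KD_nonneg h
  refine (norm_sum_le _ _).trans ?_
  calc ∑ l ∈ p.LL, ‖∑ q ∈ p.QQ, ∑ x ∈ XD p, ∑ w ∈ p.W,
      (if CD l q x w then p.cc (x.2.1, x.2.2, l) * (starRingEnd ℂ) (p.cc (q, w, l)) *
        ((p.br x.1 (x.2.1, x.2.2, l) (q, w, l) : ℝ) : ℂ) else 0)‖
      ≤ ∑ l ∈ p.LL, ∑ q ∈ p.QQ, (2 * p.H) * KD p := by
        refine sum_le_sum (fun l hl => (norm_sum_le _ _).trans (sum_le_sum (fun q hq => key l hl q hq)))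
    _ = (p.LL.card : ℝ) * (p.QQ.card * ((2 * p.H) * KD p)) := by
        rw [sum_const, sum_const, nsmul_eq_mul, nsmul_eq_mul]
    _ ≤ (2 * p.L) * ((2 * p.Q) * ((2 * p.H) * KD p)) := by
        have h1 := h.cardLL
        have h2 := h.cardQQ
        refine mul_le_mul h1 (mul_le_mul_of_nonneg_right h2 (by positivity)) (by positivity) (by linarith)
    _ = 11776 * p.H * p.M * p.L * Real.sqrt (p.R0 * (1 / p.P + 1 / p.L)) := by
        unfold KD
        field_simp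
        ring
    _ ≤ 12000 * p.H * p.M * p.L * Real.sqrt (p.R0 * (1 / p.P + 1 / p.L)) := by
        have : 0 ≤ p.H * p.M * p.L * Real.sqrt (p.R0 * (1 / p.P + 1 / p.L)) := by positivity
        nlinarith

end Pool.Agent.Helper4.BG.P4
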